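import Pool.Agent.Helper98.LM.St

/-!
Module FNA of project LM: for almost all `n` there is a good `k ≤ C log n`.
-/

set_option autoImplicit false

noncomputable section

namespace Pool.Agent.Helper87.LM

open Finset Filter Asymptotics
open Pool.Agent.Helper98.LM

private lemma prim_le {p l : ℕ} (hl : l.Prime) (h : l ∣ primorial p) : l ≤ p := by
  unfold primorial at h
  obtain ⟨q, hq, hd⟩ := (hl.prime.dvd_finset_prod_iff _).1 h
  rw [mem_filter, mem_range] at hq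
  have := (Nat.prime_dvd_prime_iff_eq hl hq.2).1 hd
  omega

private lemma ev_real (P : ℝ) (C₀ : ℝ) : ∀ᶠ x : ℝ in atTop, 2 * P * (C₀ * Real.log x + 2) ≤ x ^ (1 / 2 : ℝ) := by
  have a := (isLittleO_log_rpow_atTop (r := 1 / 2) (by norm_num)).const_mul_left C₀
  have b : (fun _ : ℝ => (2 : ℝ)) =o[atTop] fun x : ℝ => x ^ (1 / 2 : ℝ) :=
    isLittleO_const_left.2 (Or.inr (tendsto_norm_atTop_atTop.comp (tendsto_rpow_atTop (by norm_num))))
  have h := (a.add b).const_mul_left (2 * P)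
  have h2 := h.def (c := 1) one_pos
  filter_upwards [h2, eventually_ge_atTop (0 : ℝ)] with x hx h0
  rw [one_mul, Real.norm_eq_abs, Real.norm_eq_abs, abs_of_nonneg (Real.rpow_nonneg h0 _)] at hx
  exact le_trans (le_abs_self _) hx

/-- the size of `w` -/
private lemma w_big {P N M : ℕ} {δ : ℝ} (hδ : 0 < δ) (hP : 1 ≤ P) (hM : M = N / P) (hN : 2 * P ≤ N)
    (hb : 2 * ((2 * P : ℕ) : ℝ) ^ δ ≤ (N : ℝ) ^ (δ / 2)) :
    (N : ℝ) ^ (δ / 2) ≤ (⌊(M : ℝ) ^ δ⌋₊ : ℝ) := by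
  have hP0 : (0 : ℝ) < P := by exact_mod_cast hP
  have hN0 : (0 : ℝ) < N := by
    have : 0 < N := by omega
    exact_mod_cast this
  have h1 : N < P * (M + 1) := by
    rw [hM]; exact Nat.lt_mul_div_succ N (by omega)
  have h1' : (N : ℝ) < P * (M + 1) := by exact_mod_cast h1
  have hN2 : (2 : ℝ) * P ≤ N := by exact_mod_cast hN
  have h2 : (N : ℝ) / (2 * P) ≤ M := by
    rw [div_le_iff₀ (by positivity)]
    nlinarith
  have h2P : (1 : ℝ) ≤ ((2 * P : ℕ) : ℝ) ^ δ := by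
    apply Real.one_le_rpow _ hδ.le
    have : 1 ≤ 2 * P := by omega
    exact_mod_cast this
  have h3 : 2 * (N : ℝ) ^ (δ / 2) ≤ (M : ℝ) ^ δ := by
    calc 2 * (N : ℝ) ^ (δ / 2) ≤ ((N : ℝ) / (2 * P)) ^ δ := by
          rw [Real.div_rpow hN0.le (by positivity)]
          have h4 : (N : ℝ) ^ δ = (N : ℝ) ^ (δ / 2) * (N : ℝ) ^ (δ / 2) := by
            rw [← Real.rpow_add hN0]; congr 1; ring
          have h5 : ((2 : ℝ) * P) ^ δ = ((2 * P : ℕ) : ℝ) ^ δ := by push_cast; rfl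
          rw [h4, h5, le_div_iff₀ (by linarith)]
          nlinarith [Real.rpow_nonneg hN0.le (δ / 2)]
      _ ≤ (M : ℝ) ^ δ := Real.rpow_le_rpow (by positivity) h2 hδ.le
  have h6 := Nat.lt_floor_add_one ((M : ℝ) ^ δ)
  have h7 : (1 : ℝ) ≤ (N : ℝ) ^ (δ / 2) := by linarith
  linarith

/-- a number with `XX > 0` is good -/
private lemma good_of (hE : StEX) {p N n J : ℕ} {δ C₀ : ℝ} (hδ : 0 < δ) (hC : 0 < C₀)
    (hJ : J = ⌈C₀ * Real.log ((N / primorial p : ℕ) : ℝ)⌉₊) (hn : n ≤ N) (hn2 : N ≤ n * n) (hn3 : 3 ≤ n)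
    (hNP : 2 * primorial p ≤ N)
    (hb : 2 * ((2 * primorial p : ℕ) : ℝ) ^ δ ≤ (N : ℝ) ^ (δ / 2))
    (hs : 2 * (primorial p : ℝ) * (C₀ * Real.log N + 2) ≤ (N : ℝ) ^ (1 / 2 : ℝ))
    (hX : 0 < XX p ⌊((N / primorial p : ℕ) : ℝ) ^ δ⌋₊ (primorial p) (n % primorial p)
      (primorial p / Nat.gcd (primorial p) (n % primorial p)) J (n / primorial p)) :
    Good (2 * primorial p * (C₀ + 1)) ⌈4 / δ⌉₊ n := by
  set P := primorial p with hPd
  have hP : 1 ≤ P := primorial_pos p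
  have hP0 : (1 : ℝ) ≤ P := by exact_mod_cast hP
  have hN0 : (0 : ℝ) < N := by
    have : 0 < N := by omega
    exact_mod_cast this
  have hw := w_big (M := N / P) hδ hP rfl hNP hb
  set w := ⌊((N / P : ℕ) : ℝ) ^ δ⌋₊ with hwd
  have h2P : (1 : ℝ) ≤ ((2 * P : ℕ) : ℝ) ^ δ := by
    apply Real.one_le_rpow _ hδ.le
    have : 1 ≤ 2 * P := by omega
    exact_mod_cast this
  have hw2 : 2 ≤ w := by
    have : (2 : ℝ) ≤ w := by linarith
    exact_mod_cast this
  have hM1 : 1 ≤ N / P := by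
    rw [Nat.le_div_iff_mul_le (by omega)]; omega
  have hM1' : (1 : ℝ) ≤ ((N / P : ℕ) : ℝ) := by exact_mod_cast hM1
  have hlM : 0 ≤ Real.log ((N / P : ℕ) : ℝ) := Real.log_nonneg hM1'
  have hlMN : Real.log ((N / P : ℕ) : ℝ) ≤ Real.log N := by
    apply Real.log_le_log (by linarith)
    exact_mod_cast Nat.div_le_self N P
  have hJ1 : (J : ℝ) ≤ C₀ * Real.log N + 1 := by
    have h := (Nat.ceil_lt_add_one (mul_nonneg hC.le hlM)).le
    rw [← hJ] at h
    nlinarith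
  have hlN : 0 ≤ Real.log N := le_trans hlM hlMN
  -- size
  have hn2' : (N : ℝ) ≤ (n : ℝ) ^ 2 := by
    have : (N : ℝ) ≤ (n * n : ℕ) := by exact_mod_cast hn2
    push_cast at this; nlinarith
  have hsq : (N : ℝ) ^ (1 / 2 : ℝ) ≤ n := by
    rw [← Real.sqrt_eq_rpow]
    exact Real.sqrt_le_iff.2 ⟨Nat.cast_nonneg n, hn2'⟩
  have hPJ : 2 * ((P : ℝ) * (J + 1)) ≤ n := by
    have : 2 * ((P : ℝ) * (J + 1)) ≤ 2 * (P : ℝ) * (C₀ * Real.log N + 2) := by nlinarith
    linarith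
  have hPJn : 2 * (P * (J + 1)) ≤ n := by exact_mod_cast hPJ
  have hPJn' : primorial p * (J + 1) ≤ n := by
    have h : P * (J + 1) ≤ n := by omega
    exact h
  obtain ⟨k, hk1, hk2, hk3⟩ := hE p w J n hw2 hPJn' hX
  have hk2n : k ≤ P * (J + 1) := hk2
  have hk2' : (k : ℝ) ≤ P * (J + 1) := by exact_mod_cast hk2n
  have hn0 : (0 : ℝ) < n := by
    have : 0 < n := by omega
    exact_mod_cast this
  have hln1 : 1 ≤ Real.log n := by
    rw [Real.le_log_iff_exp_le hn0]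
    have : (3 : ℝ) ≤ n := by exact_mod_cast hn3
    linarith [Real.exp_one_lt_d9]
  have hlNn : Real.log N ≤ 2 * Real.log n := by
    have := Real.log_le_log hN0 hn2'
    rw [Real.log_pow] at this
    push_cast at this; exact this
  refine ⟨k, hk1, by omega, ?_, ?_⟩
  · calc (k : ℝ) ≤ P * (J + 1) := hk2'
      _ ≤ P * (C₀ * (2 * Real.log n) + 2) := by
          apply mul_le_mul_of_nonneg_left _ (by linarith)
          nlinarith
      _ ≤ P * (C₀ * (2 * Real.log n) + 2 * Real.log n) := by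
          apply mul_le_mul_of_nonneg_left _ (by linarith)
          linarith
      _ = 2 * P * (C₀ + 1) * Real.log n := by ring
  · have hlw : (δ / 2) * Real.log N ≤ Real.log w := by
      rw [← Real.log_rpow hN0]
      exact Real.log_le_log (Real.rpow_pos_of_pos hN0 _) hw
    have hlnN : Real.log n ≤ Real.log N := Real.log_le_log hn0 (by exact_mod_cast hn)
    have hlN1 : 1 ≤ Real.log N := le_trans hln1 hlnN
    set Om := ArithmeticFunction.cardFactors (k ^ 2 + k * (n - k) + (n - k) ^ 2) with hOm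
    have h1 : (Om : ℝ) * ((δ / 2) * Real.log N) ≤ 2 * Real.log N := by
      calc (Om : ℝ) * ((δ / 2) * Real.log N) ≤ Om * Real.log w := mul_le_mul_of_nonneg_left hlw (Nat.cast_nonneg _)
        _ ≤ 2 * Real.log n := hk3
        _ ≤ 2 * Real.log N := by linarith
    have h2 : (Om : ℝ) ≤ 4 / δ := by
      rw [le_div_iff₀ hδ]
      have h3 : (Om : ℝ) * δ * Real.log N ≤ 4 * Real.log N := by nlinarith
      exact le_of_mul_le_mul_right h3 (by linarith)
    have h4 := le_trans h2 (Nat.le_ceil (4 / δ))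
    exact_mod_cast h4

/-- FNA -/
theorem hFNA (h : StCHA) (hE : StEX) : StFNA := by
  classical
  intro ε hε
  obtain ⟨δ, C₀, hδ, hδ1, hC, p₁, hp7, hp⟩ := h (ε / 2) (by linarith)
  obtain ⟨M₀, hM⟩ := hp p₁ (primorial p₁) le_rfl (primorial_pos p₁) (fun l hl hd => prim_le hl hd)
  set P := primorial p₁ with hPd
  have hP : 1 ≤ P := primorial_pos p₁
  have hP0 : (1 : ℝ) ≤ P := by exact_mod_cast hP
  refine ⟨2 * P * (C₀ + 1), by positivity, ⌈4 / δ⌉₊, ?_⟩
  have E1 : ∀ᶠ N : ℕ in atTop, 2 * (P : ℝ) * (C₀ * Real.log N + 2) ≤ (N : ℝ) ^ (1 / 2 : ℝ) :=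
    tendsto_natCast_atTop_atTop.eventually (ev_real (P : ℝ) C₀)
  have E2 : ∀ᶠ N : ℕ in atTop, 2 * ((2 * P : ℕ) : ℝ) ^ δ ≤ (N : ℝ) ^ (δ / 2) :=
    tendsto_natCast_atTop_atTop.eventually
      ((tendsto_rpow_atTop (by linarith : 0 < δ / 2)).eventually_ge_atTop (2 * ((2 * P : ℕ) : ℝ) ^ δ))
  have E3 : ∀ᶠ N : ℕ in atTop, 2 / ε ≤ (N : ℝ) ^ (1 / 2 : ℝ) :=
    tendsto_natCast_atTop_atTop.eventually
      ((tendsto_rpow_atTop (by norm_num : (0 : ℝ) < 1 / 2)).eventually_ge_atTop (2 / ε))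
  have E4 : ∀ᶠ N : ℕ in atTop, P * M₀ + 2 * P + 9 * P ^ 2 ≤ N := eventually_ge_atTop _
  obtain ⟨N₀, hN₀⟩ := eventually_atTop.1 (E1.and (E2.and (E3.and E4)))
  refine ⟨N₀, fun N hN => ?_⟩
  obtain ⟨e1, e2, e3, e4⟩ := hN₀ N hN
  have hN0 : (0 : ℝ) < N := by
    have : 0 < N := by nlinarith
    exact_mod_cast this
  set M := N / P with hMd
  have hMM : M₀ ≤ M := by
    rw [hMd, Nat.le_div_iff_mul_le (by omega)]; nlinarith
  set J := ⌈C₀ * Real.log (M : ℝ)⌉₊ with hJd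
  have hJ : C₀ * Real.log (M : ℝ) ≤ J := Nat.le_ceil _
  set w := ⌊(M : ℝ) ^ δ⌋₊ with hwd
  let rr : ℕ → ℕ := fun a => P / Nat.gcd P a
  let bad : ℕ → Finset ℕ := fun a => (Icc 1 M).filter (fun m : ℕ => XX p₁ w P a (rr a) J m = 0)
  have hbad : ∀ a : ℕ, ((bad a).card : ℝ) ≤ ε / 2 * M := fun a =>
    hM M J a (rr a) hMM hJ (Nat.div_le_self _ _)
  -- the cover
  have hcov : (Icc 1 N).filter (fun n => ¬ Good (2 * P * (C₀ + 1)) ⌈4 / δ⌉₊ n) ⊆
      (Icc 1 (Nat.sqrt N)) ∪ (range P).biUnion (fun a => (bad a).image (fun m => a + P * m)) := by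
    intro n hn
    rw [mem_filter, mem_Icc] at hn
    obtain ⟨⟨hn1, hnN⟩, hng⟩ := hn
    rw [mem_union]
    by_cases hs : n ≤ Nat.sqrt N
    · left; exact mem_Icc.2 ⟨hn1, hs⟩
    · right
      have hs' : Nat.sqrt N < n := by omega
      have hNn : N < n * n := Nat.sqrt_lt.1 hs'
      have h3P : 3 * P < n := by
        by_contra hc
        have : n * n ≤ (3 * P) * (3 * P) := Nat.mul_le_mul (by omega) (by omega)
        nlinarith
      have hmod : n % P < P := Nat.mod_lt _ (by omega)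
      have hdm : n % P + P * (n / P) = n := Nat.mod_add_div n P
      rw [mem_biUnion]
      refine ⟨n % P, mem_range.2 hmod, ?_⟩
      rw [mem_image]
      refine ⟨n / P, ?_, hdm⟩
      rw [mem_filter, mem_Icc]
      refine ⟨⟨?_, Nat.div_le_div_right hnN⟩, ?_⟩
      · rw [Nat.le_div_iff_mul_le (by omega)]; omega
      · by_contra hX
        exact hng (good_of hE hδ hC rfl hnN hNn.le (by omega) (by nlinarith) e2 e1 (Nat.pos_of_ne_zero hX))
  have hc1 : (((Icc 1 N).filter (fun n => ¬ Good (2 * P * (C₀ + 1)) ⌈4 / δ⌉₊ n)).card : ℝ) ≤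
      (Nat.sqrt N : ℝ) + P * (ε / 2 * M) := by
    have h1 := card_le_card hcov
    have h2 := card_union_le (Icc 1 (Nat.sqrt N)) ((range P).biUnion (fun a => (bad a).image (fun m => a + P * m)))
    have h3 : (((range P).biUnion (fun a => (bad a).image (fun m => a + P * m))).card : ℝ) ≤ P * (ε / 2 * M) := by
      calc (((range P).biUnion (fun a => (bad a).image (fun m => a + P * m))).card : ℝ)
          ≤ ((∑ a ∈ range P, ((bad a).image (fun m => a + P * m)).card : ℕ) : ℝ) := by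
            exact_mod_cast card_biUnion_le
        _ ≤ ∑ a ∈ range P, (ε / 2 * M) := by
            push_cast
            apply sum_le_sum
            intro a _
            refine le_trans ?_ (hbad a)
            exact_mod_cast card_image_le
        _ = P * (ε / 2 * M) := by rw [sum_const, card_range, nsmul_eq_mul]
    have h4 : (Icc 1 (Nat.sqrt N)).card = Nat.sqrt N := by simp
    have h5 : (((Icc 1 N).filter (fun n => ¬ Good (2 * P * (C₀ + 1)) ⌈4 / δ⌉₊ n)).card : ℝ) ≤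
        (Nat.sqrt N : ℝ) + (((range P).biUnion (fun a => (bad a).image (fun m => a + P * m))).card : ℝ) := by
      rw [h4] at h2
      exact_mod_cast le_trans h1 h2
    linarith
  have hc2 : (P : ℝ) * (ε / 2 * M) ≤ ε / 2 * N := by
    have h1 : P * M ≤ N := by rw [hMd]; exact Nat.mul_div_le N P
    have h1' : (P : ℝ) * M ≤ N := by exact_mod_cast h1
    nlinarith
  have hc3 : (Nat.sqrt N : ℝ) ≤ ε / 2 * N := by
    have h1 : (Nat.sqrt N : ℝ) ≤ (N : ℝ) ^ (1 / 2 : ℝ) := by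
      rw [← Real.sqrt_eq_rpow]
      apply Real.le_sqrt_of_sq_le
      have := Nat.sqrt_le' N
      exact_mod_cast this
    have h2 : (N : ℝ) ^ (1 / 2 : ℝ) * (N : ℝ) ^ (1 / 2 : ℝ) = N := by
      rw [← Real.rpow_add hN0]; norm_num
    have h3 : 0 ≤ (N : ℝ) ^ (1 / 2 : ℝ) := Real.rpow_nonneg hN0.le _
    have h4 : 1 ≤ ε / 2 * (N : ℝ) ^ (1 / 2 : ℝ) := by
      rw [div_le_iff₀ hε] at e3
      linarith
    nlinarith
  linarith

end Pool.Agent.Helper87.LM
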